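import Pool.Agent.Helper62.MU.St

/-!
# Module ID of project MU (`MP_ae3a4d_gt`): an identity on the sphere
-/

set_option autoImplicit false

open MeasureTheory Metric Set Filter Topology
open scoped RealInnerProductSpace ContDiff

namespace Pool.Agent.Helper92.MU

open Pool.Agent.Helper62.MU Pool.Agent.Helper62.Mink

/-- rotation by the angle `s` in the plane of `a, b` -/
noncomputable def Rl {n : ℕ} (a b : E n) (s : ℝ) (z : E n) : E n :=
  z + ((Real.cos s - 1) * inner ℝ a z - Real.sin s * inner ℝ b z) • a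
    + ((Real.cos s - 1) * inner ℝ b z + Real.sin s * inner ℝ a z) • b

/-- its derivative in `s` -/
noncomputable def Rl' {n : ℕ} (a b : E n) (s : ℝ) (z : E n) : E n :=
  (-Real.sin s * inner ℝ a z - Real.cos s * inner ℝ b z) • a
    + (-Real.sin s * inner ℝ b z + Real.cos s * inner ℝ a z) • b

/-- the rotation as a linear map -/
noncomputable def Rm {n : ℕ} (a b : E n) (s : ℝ) : E n →ₗ[ℝ] E n where
  toFun := Rl a b s
  map_add' x y := by
    simp only [Rl, inner_add_right]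
    module
  map_smul' c x := by
    simp only [Rl, inner_smul_right, RingHom.id_apply]
    module

lemma norm_Rl {n : ℕ} {a b : E n} (ha : ‖a‖ = 1) (hb : ‖b‖ = 1) (hab : (inner ℝ a b : ℝ) = 0)
    (s : ℝ) (z : E n) : ‖Rl a b s z‖ = ‖z‖ := by
  have haa : (inner ℝ a a : ℝ) = 1 := by rw [real_inner_self_eq_norm_sq, ha]; norm_num
  have hbb : (inner ℝ b b : ℝ) = 1 := by rw [real_inner_self_eq_norm_sq, hb]; norm_num
  have hba : (inner ℝ b a : ℝ) = 0 := by rw [real_inner_comm]; exact hab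
  have hcs := Real.cos_sq_add_sin_sq s
  have h : (inner ℝ (Rl a b s z) (Rl a b s z) : ℝ) = inner ℝ z z := by
    simp only [Rl, inner_add_left, inner_add_right, inner_smul_left, inner_smul_right,
      RCLike.conj_to_real, haa, hbb, hab, hba, real_inner_comm a z, real_inner_comm b z]
    set p : ℝ := inner ℝ a z
    set q : ℝ := inner ℝ b z
    have e : (Real.sin s) ^ 2 = 1 - (Real.cos s) ^ 2 := by linarith
    ring_nf
    rw [e]
    ring
  rw [real_inner_self_eq_norm_sq, real_inner_self_eq_norm_sq] at h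
  exact (sq_eq_sq₀ (norm_nonneg _) (norm_nonneg _)).1 h

/-- the rotation as an isometry -/
noncomputable def Re {n : ℕ} {a b : E n} (ha : ‖a‖ = 1) (hb : ‖b‖ = 1)
    (hab : (inner ℝ a b : ℝ) = 0) (s : ℝ) : E n ≃ₗᵢ[ℝ] E n :=
  LinearIsometry.toLinearIsometryEquiv ⟨Rm a b s, norm_Rl ha hb hab s⟩ rfl

lemma Re_apply {n : ℕ} {a b : E n} (ha : ‖a‖ = 1) (hb : ‖b‖ = 1)
    (hab : (inner ℝ a b : ℝ) = 0) (s : ℝ) (z : E n) : Re ha hb hab s z = Rl a b s z := rfl

lemma Rl_zero {n : ℕ} (a b : E n) (z : E n) : Rl a b 0 z = z := by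
  simp [Rl]

lemma Rl'_zero {n : ℕ} (a b : E n) (z : E n) :
    Rl' a b 0 z = (inner ℝ a z : ℝ) • b - (inner ℝ b z : ℝ) • a := by
  simp only [Rl', Real.sin_zero, Real.cos_zero]
  module

lemma Rl_deriv {n : ℕ} (a b : E n) (s : ℝ) (z : E n) :
    HasDerivAt (fun s => Rl a b s z) (Rl' a b s z) s := by
  have hc := Real.hasDerivAt_cos s
  have hs := Real.hasDerivAt_sin s
  have h1 : HasDerivAt (fun s => (Real.cos s - 1) * inner ℝ a z - Real.sin s * inner ℝ b z)
      (-Real.sin s * inner ℝ a z - Real.cos s * inner ℝ b z) s :=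
    ((hc.sub_const 1).mul_const _).sub (hs.mul_const _)
  have h2 : HasDerivAt (fun s => (Real.cos s - 1) * inner ℝ b z + Real.sin s * inner ℝ a z)
      (-Real.sin s * inner ℝ b z + Real.cos s * inner ℝ a z) s :=
    ((hc.sub_const 1).mul_const _).add (hs.mul_const _)
  have h3 := (((h1.smul_const a).const_add z).add (h2.smul_const b))
  exact h3

/-- the rotation field integrates to zero -/
lemma SI_rot {n : ℕ} {a b : E n} (ha : ‖a‖ = 1) (hb : ‖b‖ = 1)
    (hab : (inner ℝ a b : ℝ) = 0) {ψ : E n → ℝ} (hψ : ContDiffOn ℝ 1 ψ {0}ᶜ) :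
    SI (fun z : E n => fderiv ℝ ψ z ((inner ℝ a z : ℝ) • b - (inner ℝ b z : ℝ) • a)) = 0 := by
  have hne : ∀ (s : ℝ) (w : sphere (0 : E n) 1), Rl a b s (w : E n) ∈ ({0}ᶜ : Set (E n)) := by
    intro s w h0
    have h0' : Rl a b s (w : E n) = 0 := h0
    have h1 := norm_Rl ha hb hab s (w : E n)
    rw [h0', norm_zero] at h1
    have h2 : ‖(w : E n)‖ = 1 := by simp
    rw [h2] at h1
    norm_num at h1
  have hopen : IsOpen ({0}ᶜ : Set (E n)) := isOpen_compl_singleton
  have hRc : Continuous (fun p : ℝ × sphere (0 : E n) 1 => Rl a b p.1 (p.2 : E n)) := by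
    unfold Rl; fun_prop
  have hRc' : Continuous (fun p : ℝ × sphere (0 : E n) 1 => Rl' a b p.1 (p.2 : E n)) := by
    unfold Rl'; fun_prop
  have hfd : ContinuousOn (fderiv ℝ ψ) ({0}ᶜ : Set (E n)) :=
    hψ.continuousOn_fderiv_of_isOpen hopen le_rfl
  have h1 : ∀ τ : ℝ, Continuous (fun w : sphere (0 : E n) 1 => ψ (Rl a b τ (w : E n))) := by
    intro τ
    refine hψ.continuousOn.comp_continuous ?_ (hne τ)
    exact hRc.comp (Continuous.prodMk_right τ)
  have h2 : Continuous (Function.uncurry fun (τ : ℝ) (w : sphere (0 : E n) 1) =>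
      fderiv ℝ ψ (Rl a b τ (w : E n)) (Rl' a b τ (w : E n))) := by
    have h3 : Continuous (fun p : ℝ × sphere (0 : E n) 1 => fderiv ℝ ψ (Rl a b p.1 (p.2 : E n))) :=
      hfd.comp_continuous hRc (fun p => hne p.1 p.2)
    exact h3.clm_apply hRc'
  have h4 : ∀ (τ : ℝ) (w : sphere (0 : E n) 1),
      HasDerivAt (fun τ => ψ (Rl a b τ (w : E n)))
        (fderiv ℝ ψ (Rl a b τ (w : E n)) (Rl' a b τ (w : E n))) τ := by
    intro τ w
    have hd : DifferentiableAt ℝ ψ (Rl a b τ (w : E n)) :=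
      (hψ.differentiableOn (by norm_num)).differentiableAt (hopen.mem_nhds (hne τ w))
    exact hd.hasFDerivAt.comp_hasDerivAt τ (Rl_deriv a b τ (w : E n))
  have h5 := hasDerivAt_param (μ := (volume : Measure (E n)).toSphere) h1 h2 h4 0
  have h6 : (fun τ : ℝ => ∫ w : sphere (0 : E n) 1, ψ (Rl a b τ (w : E n))
      ∂(volume : Measure (E n)).toSphere) =
      fun _ => ∫ w : sphere (0 : E n) 1, ψ (w : E n) ∂(volume : Measure (E n)).toSphere := by
    funext τ
    exact sphere_integral_comp (Re ha hb hab τ) ψ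
  rw [h6] at h5
  have h7 := h5.unique (hasDerivAt_const (0 : ℝ) _)
  unfold SI
  rw [← h7]
  refine integral_congr_ae (Filter.Eventually.of_forall fun w => ?_)
  simp only [Rl_zero, Rl'_zero]

/-- one term of the sum -/
lemma term_j {m : ℕ} {φ : E (m + 1) → ℝ} (hφ : ContDiffOn ℝ 1 φ {0}ᶜ) (j : Fin m) :
    SI (fun z : E (m + 1) => (z 0 ^ 2 - z j.succ ^ 2) * φ z
      + z 0 * z j.succ * (z 0 * fderiv ℝ φ z (EuclideanSpace.single j.succ 1)
        - z j.succ * fderiv ℝ φ z (EuclideanSpace.single 0 1))) = 0 := by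
  set a : E (m + 1) := EuclideanSpace.single 0 1 with ha0
  set b : E (m + 1) := EuclideanSpace.single j.succ 1 with hb0
  have ha : ‖a‖ = 1 := by simp [ha0]
  have hb : ‖b‖ = 1 := by simp [hb0]
  have hin0 : ∀ z : E (m + 1), (inner ℝ a z : ℝ) = z 0 := by
    intro z; simp [ha0, EuclideanSpace.inner_single_left]
  have hinj : ∀ z : E (m + 1), (inner ℝ b z : ℝ) = z j.succ := by
    intro z; simp [hb0, EuclideanSpace.inner_single_left]
  have hab : (inner ℝ a b : ℝ) = 0 := by
    rw [hin0]; simp [hb0, Fin.succ_ne_zero]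
  have hc0 : ContDiff ℝ 1 (fun z : E (m + 1) => z 0) := by fun_prop
  have hcj : ContDiff ℝ 1 (fun z : E (m + 1) => z j.succ) := by fun_prop
  have hψ : ContDiffOn ℝ 1 (fun z : E (m + 1) => z 0 * z j.succ * φ z) {0}ᶜ :=
    (hc0.mul hcj).contDiffOn.mul hφ
  have h := SI_rot ha hb hab hψ
  rw [← h]
  unfold SI
  refine integral_congr_ae (Filter.Eventually.of_forall fun w => ?_)
  have hopen : IsOpen ({0}ᶜ : Set (E (m + 1))) := isOpen_compl_singleton
  have hw : (w : E (m + 1)) ∈ ({0}ᶜ : Set (E (m + 1))) := by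
    intro h0
    have h0' : (w : E (m + 1)) = 0 := h0
    have h2 : ‖(w : E (m + 1))‖ = 1 := by simp
    rw [h0', norm_zero] at h2
    norm_num at h2
  have hd : DifferentiableAt ℝ φ (w : E (m + 1)) :=
    (hφ.differentiableOn (by norm_num)).differentiableAt (hopen.mem_nhds hw)
  have hp0 : HasFDerivAt (fun z : E (m + 1) => z 0)
      (EuclideanSpace.proj (0 : Fin (m + 1)) : E (m + 1) →L[ℝ] ℝ) (w : E (m + 1)) :=
    (EuclideanSpace.proj (0 : Fin (m + 1)) : E (m + 1) →L[ℝ] ℝ).hasFDerivAt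
  have hpj : HasFDerivAt (fun z : E (m + 1) => z j.succ)
      (EuclideanSpace.proj j.succ : E (m + 1) →L[ℝ] ℝ) (w : E (m + 1)) :=
    (EuclideanSpace.proj j.succ : E (m + 1) →L[ℝ] ℝ).hasFDerivAt
  have hder : fderiv ℝ (fun z : E (m + 1) => z 0 * z j.succ * φ z) (w : E (m + 1)) =
      ((w : E (m + 1)) 0 * (w : E (m + 1)) j.succ) • fderiv ℝ φ (w : E (m + 1)) +
      φ (w : E (m + 1)) • ((w : E (m + 1)) 0 • (EuclideanSpace.proj j.succ : E (m + 1) →L[ℝ] ℝ) +
        (w : E (m + 1)) j.succ • (EuclideanSpace.proj (0 : Fin (m + 1)) : E (m + 1) →L[ℝ] ℝ)) :=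
    ((hp0.mul hpj).mul hd.hasFDerivAt).fderiv
  simp only
  rw [hder]
  simp only [hin0, hinj]
  have ea0 : a 0 = 1 := by simp [ha0]
  have eaj : a j.succ = 0 := by simp [ha0, Fin.succ_ne_zero]
  have eb0 : b 0 = 0 := by simp [hb0, (Fin.succ_ne_zero j).symm]
  have ebj : b j.succ = 1 := by simp [hb0]
  have p0a : (EuclideanSpace.proj (0 : Fin (m + 1)) : E (m + 1) →L[ℝ] ℝ) a = 1 := ea0
  have p0b : (EuclideanSpace.proj (0 : Fin (m + 1)) : E (m + 1) →L[ℝ] ℝ) b = 0 := eb0
  have pja : (EuclideanSpace.proj j.succ : E (m + 1) →L[ℝ] ℝ) a = 0 := eaj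
  have pjb : (EuclideanSpace.proj j.succ : E (m + 1) →L[ℝ] ℝ) b = 1 := ebj
  simp only [ContinuousLinearMap.add_apply, ContinuousLinearMap.smul_apply, smul_eq_mul,
    map_sub, map_smul, p0a, p0b, pja, pjb]
  ring

theorem hID : StID := by
  intro m φ hφ
  have hopen : IsOpen ({0}ᶜ : Set (E (m + 1))) := isOpen_compl_singleton
  have hsub : sphere (0 : E (m + 1)) 1 ⊆ ({0}ᶜ : Set (E (m + 1))) := by
    intro w hw h0
    have h0' : w = 0 := h0
    have h2 : ‖w‖ = 1 := by simpa using hw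
    rw [h0', norm_zero] at h2
    norm_num at h2
  have hfd : ContinuousOn (fderiv ℝ φ) (sphere (0 : E (m + 1)) 1) :=
    (hφ.continuousOn_fderiv_of_isOpen hopen le_rfl).mono hsub
  have hφc : ContinuousOn φ (sphere (0 : E (m + 1)) 1) := hφ.continuousOn.mono hsub
  have hz : ∀ i : Fin (m + 1), Continuous (fun z : E (m + 1) => z i) := fun i => by fun_prop
  have hfe : ∀ v : E (m + 1), ContinuousOn (fun z => fderiv ℝ φ z v) (sphere (0 : E (m + 1)) 1) :=
    fun v => hfd.clm_apply continuousOn_const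
  have hint : ∀ j ∈ (Finset.univ : Finset (Fin m)),
      Integrable (fun w : sphere (0 : E (m + 1)) 1 =>
        (fun z : E (m + 1) => (z 0 ^ 2 - z j.succ ^ 2) * φ z
      + z 0 * z j.succ * (z 0 * fderiv ℝ φ z (EuclideanSpace.single j.succ 1)
        - z j.succ * fderiv ℝ φ z (EuclideanSpace.single 0 1))) w)
        (volume : Measure (E (m + 1))).toSphere := by
    intro j _
    refine sphere_integrable (φ := fun z : E (m + 1) => (z 0 ^ 2 - z j.succ ^ 2) * φ z
      + z 0 * z j.succ * (z 0 * fderiv ℝ φ z (EuclideanSpace.single j.succ 1)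
        - z j.succ * fderiv ℝ φ z (EuclideanSpace.single 0 1))) ?_
    have c0 := (hz 0).continuousOn (s := sphere (0 : E (m + 1)) 1)
    have cj := (hz j.succ).continuousOn (s := sphere (0 : E (m + 1)) 1)
    exact (((c0.pow 2).sub (cj.pow 2)).mul hφc).add
      ((c0.mul cj).mul ((c0.mul (hfe _)).sub (cj.mul (hfe _))))
  have hsum : ∑ j : Fin m, SI (fun z : E (m + 1) => (z 0 ^ 2 - z j.succ ^ 2) * φ z
      + z 0 * z j.succ * (z 0 * fderiv ℝ φ z (EuclideanSpace.single j.succ 1)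
        - z j.succ * fderiv ℝ φ z (EuclideanSpace.single 0 1))) = 0 :=
    Finset.sum_eq_zero fun j _ => term_j hφ j
  unfold SI at hsum
  rw [← integral_finsetSum _ hint] at hsum
  have hneg : SI (fun z : E (m + 1) => (1 - ((m : ℝ) + 1) * z 0 ^ 2) * φ z
      - z 0 ^ 2 * fderiv ℝ φ z z + z 0 * fderiv ℝ φ z (EuclideanSpace.single 0 1)) = -(0 : ℝ) := by
    rw [← hsum]
    unfold SI
    rw [← integral_neg]
    refine integral_congr_ae (Filter.Eventually.of_forall fun w => ?_)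
    simp only
    have hw1 : ‖(w : E (m + 1))‖ = 1 := by simp
    have hs : ∑ j : Fin m, (w : E (m + 1)) j.succ ^ 2 = 1 - (w : E (m + 1)) 0 ^ 2 := by
      have h1 := EuclideanSpace.real_norm_sq_eq (w : E (m + 1))
      rw [hw1, Fin.sum_univ_succ] at h1
      linarith
    have hexp : (w : E (m + 1)) = ∑ i : Fin (m + 1),
        (w : E (m + 1)) i • (EuclideanSpace.single i (1 : ℝ) : E (m + 1)) := by
      ext k
      simp [Finset.sum_apply, Pi.single_apply]
    have key : ∀ D : E (m + 1) →L[ℝ] ℝ, D (w : E (m + 1)) =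
        (w : E (m + 1)) 0 * D (EuclideanSpace.single 0 1)
        + ∑ j : Fin m, (w : E (m + 1)) j.succ * D (EuclideanSpace.single j.succ 1) := by
      intro D
      conv_lhs => rw [hexp]
      rw [map_sum, Fin.sum_univ_succ]
      simp only [map_smul, smul_eq_mul]
    have hlin := key (fderiv ℝ φ (w : E (m + 1)))
    set z : E (m + 1) := (w : E (m + 1)) with hz0
    set D0 : ℝ := fderiv ℝ φ z (EuclideanSpace.single 0 1) with hD0
    have e1 : ∑ j : Fin m, ((z 0 ^ 2 - z j.succ ^ 2) * φ z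
        + z 0 * z j.succ * (z 0 * fderiv ℝ φ z (EuclideanSpace.single j.succ 1)
          - z j.succ * D0)) =
        (m : ℝ) * z 0 ^ 2 * φ z - (∑ j : Fin m, z j.succ ^ 2) * φ z
          + z 0 ^ 2 * (∑ j : Fin m, z j.succ * fderiv ℝ φ z (EuclideanSpace.single j.succ 1))
          - z 0 * D0 * ∑ j : Fin m, z j.succ ^ 2 := by
      have e2 : (m : ℝ) * z 0 ^ 2 * φ z = ∑ _j : Fin m, z 0 ^ 2 * φ z := by
        rw [Finset.sum_const, Finset.card_univ, Fintype.card_fin, nsmul_eq_mul]; ring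
      rw [e2, Finset.sum_mul, Finset.mul_sum, Finset.mul_sum, ← Finset.sum_sub_distrib,
        ← Finset.sum_add_distrib, ← Finset.sum_sub_distrib]
      refine Finset.sum_congr rfl fun j _ => ?_
      ring
    have e3 : ∑ j : Fin m, z j.succ * fderiv ℝ φ z (EuclideanSpace.single j.succ 1) =
        fderiv ℝ φ z z - z 0 * D0 := by
      rw [hlin]; ring
    rw [e1, hs, e3]
    ring
  rw [hneg]; norm_num

end Pool.Agent.Helper92.MU
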